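import Mathlib.LinearAlgebra.Matrix.SpecialLinearGroup
import Mathlib.LinearAlgebra.Matrix.ProjectiveSpecialLinearGroup
import Mathlib.Algebra.CharP.Lemmas
import Mathlib.FieldTheory.Finite.Basic
import Mathlib.Dynamics.PeriodicPts.Lemmas
import Mathlib.Tactic.LinearCombination
import Mathlib.Tactic.FieldSimp

/-! # The intersection property for a generating triple of `PSL(2, q)` -/

namespace Pool.Agent.Results.MP_5bb224_al.IntersectionProperty

open Matrix Function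

section Frob

variable {F : Type} [Field F] {p : ℕ} [hp : Fact p.Prime] [CharP F p]

/-- `a ∈ F` lies in the subfield with `p ^ e` elements. -/
def Fx (p e : ℕ) {F : Type} [Field F] (a : F) : Prop := a ^ p ^ e = a

omit hp [CharP F p] in
theorem Fx.mul {e : ℕ} {a b : F} (ha : Fx p e a) (hb : Fx p e b) : Fx p e (a * b) := by
  unfold Fx at *; rw [mul_pow, ha, hb]

omit hp [CharP F p] in
theorem Fx.inv {e : ℕ} {a : F} (ha : Fx p e a) : Fx p e a⁻¹ := by
  unfold Fx at *; rw [inv_pow, ha]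

theorem Fx.add {e : ℕ} {a b : F} (ha : Fx p e a) (hb : Fx p e b) : Fx p e (a + b) := by
  unfold Fx at *; rw [add_pow_char_pow, ha, hb]

theorem Fx.neg {e : ℕ} {a : F} (ha : Fx p e a) : Fx p e (-a) := by
  have h : Fx p e (-1 : F) := by
    have h1 : ((-1 : F) + 1) ^ p ^ e = (-1) ^ p ^ e + 1 ^ p ^ e := add_pow_char_pow ..
    rw [neg_add_cancel, zero_pow (pow_ne_zero _ hp.out.ne_zero), one_pow] at h1
    exact (eq_neg_of_add_eq_zero_left h1.symm)
  have := h.mul ha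
  rwa [neg_one_mul] at this

theorem Fx.sub {e : ℕ} {a b : F} (ha : Fx p e a) (hb : Fx p e b) : Fx p e (a - b) := by
  rw [sub_eq_add_neg]; exact ha.add hb.neg

omit hp [CharP F p] in
theorem Fx.one {e : ℕ} : Fx p e (1 : F) := one_pow _

omit [CharP F p] in
theorem Fx.zero {e : ℕ} : Fx p e (0 : F) := zero_pow (pow_ne_zero _ hp.out.ne_zero)

theorem iter (n : ℕ) (a : F) : (frobenius F p)^[n] a = a ^ p ^ n := iterate_frobenius ..

theorem Fx.gcd {m n : ℕ} {a : F} (ha : Fx p m a) (hb : Fx p n a) : Fx p (m.gcd n) a := by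
  have h1 : IsPeriodicPt (frobenius F p) m a := by
    change (frobenius F p)^[m] a = a
    rw [iter]; exact ha
  have h2 : IsPeriodicPt (frobenius F p) n a := by
    change (frobenius F p)^[n] a = a
    rw [iter]; exact hb
  have h3 := h1.gcd h2
  have h4 : (frobenius F p)^[m.gcd n] a = a := h3
  rw [iter] at h4
  exact h4

omit hp [CharP F p] in
theorem Fx.pow_fx {m n : ℕ} {a : F} (ha : Fx p m a) : Fx p m (a ^ p ^ n) := by
  unfold Fx at *
  rw [← pow_mul, mul_comm, pow_mul, ha]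

/-- The prime field consists of the classes of natural numbers. -/
theorem Fx.natCast {a : F} (ha : Fx p 1 a) : ∃ n : ℕ, (n : F) = a := by
  have h1 : a ^ p = a := by simpa [Fx] using ha
  obtain ⟨z, hz⟩ : ∃ z : ZMod p, ZMod.castHom (dvd_refl p) F z = a := by
    by_contra hcon
    push Not at hcon
    classical
    have hinj : Function.Injective (ZMod.castHom (dvd_refl p) F) := RingHom.injective _
    let S : Finset F := insert a (Finset.univ.image (ZMod.castHom (dvd_refl p) F))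
    have hS : S.card = p + 1 := by
      rw [Finset.card_insert_of_notMem, Finset.card_image_of_injective _ hinj, Finset.card_univ,
        ZMod.card]
      simp only [Finset.mem_image, Finset.mem_univ, true_and, not_exists]
      exact hcon
    have hroot : ∀ y ∈ S, (Polynomial.X ^ p - Polynomial.X : Polynomial F).IsRoot y := by
      intro y hy
      simp only [Polynomial.IsRoot, Polynomial.eval_sub, Polynomial.eval_pow, Polynomial.eval_X]
      rcases Finset.mem_insert.mp hy with rfl | hy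
      · rw [h1, sub_self]
      · obtain ⟨z, -, rfl⟩ := Finset.mem_image.mp hy
        rw [← map_pow, ZMod.pow_card, sub_self]
    have hne : (Polynomial.X ^ p - Polynomial.X : Polynomial F) ≠ 0 :=
      FiniteField.X_pow_card_sub_X_ne_zero F hp.out.one_lt
    have h3 := Polynomial.card_le_degree_of_subset_roots (p := Polynomial.X ^ p - Polynomial.X)
      (Z := S) (by
        intro y hy
        rw [Polynomial.mem_roots hne]
        exact hroot y hy)
    rw [FiniteField.X_pow_card_sub_X_natDegree_eq F hp.out.one_lt, hS] at h3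
    omega
  refine ⟨z.val, ?_⟩
  rw [← hz]
  conv_rhs => rw [← ZMod.natCast_zmod_val z]
  rw [map_natCast]

/-- A sum `a + b` with `a`, `b` in two subfields of coprime degrees, whose square is of the form
`u + v`. -/
theorem key {m n : ℕ} {a b u v : F} (ha : Fx p m a) (hb : Fx p n b) (hu : Fx p m u)
    (hv : Fx p n v) (h2 : (2 : F) ≠ 0) (h : (a + b) ^ 2 = u + v) : Fx p m b ∨ Fx p n a := by
  by_cases hbm : Fx p m b
  · exact Or.inl hbm
  right
  have h1 : (a + b ^ p ^ m) ^ 2 = u + v ^ p ^ m := by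
    have h3 : ((a + b) ^ 2) ^ p ^ m = (u + v) ^ p ^ m := by rw [h]
    rw [← pow_mul, mul_comm 2, pow_mul, add_pow_char_pow, add_pow_char_pow] at h3
    rw [show a ^ p ^ m = a from ha, show u ^ p ^ m = u from hu] at h3
    exact h3
  have hne : b - b ^ p ^ m ≠ 0 := by
    intro h4
    exact hbm (sub_eq_zero.mp h4).symm
  have h5 : a = ((v - v ^ p ^ m) * (b - b ^ p ^ m)⁻¹ - b - b ^ p ^ m) * 2⁻¹ := by
    field_simp
    linear_combination h - h1
  have hbp : Fx p n (b ^ p ^ m) := hb.pow_fx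
  have hvp : Fx p n (v ^ p ^ m) := hv.pow_fx
  have h2' : Fx p n (2 : F) := by
    have : (2 : F) = 1 + 1 := by norm_num
    rw [this]; exact Fx.one.add Fx.one
  rw [h5]
  exact ((((hv.sub hvp).mul (hb.sub hbp).inv).sub hb).sub hbp).mul h2'.inv

theorem primitive_contra {e : ℕ} (he : 1 < e) (hodd : Odd e) {j : F}
    (hj : orderOf j = p ^ e - 1) (hw : Fx p 1 ((j + j⁻¹) ^ 2)) : False := by
  have hp2 := hp.out.two_le
  have he3 : 3 ≤ e := by
    obtain ⟨k, hk⟩ := hodd; omega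
  have hbig : p ^ 3 ≤ p ^ e := Nat.pow_le_pow_right (by omega) he3
  have hp3 : 2 ^ 3 ≤ p ^ 3 := Nat.pow_le_pow_left hp2 3
  have hj0 : j ≠ 0 := by
    rintro rfl
    have : orderOf (0 : F) = 0 := by
      rw [orderOf_eq_zero_iff']
      intro n hn
      rw [zero_pow (by omega)]
      exact zero_ne_one
    omega
  have hjK : Fx p e j := by
    have h1 : j ^ (p ^ e - 1) = 1 := by rw [← hj]; exact pow_orderOf_eq_one j
    have h2 : j ^ (p ^ e) = j ^ (p ^ e - 1) * j := by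
      rw [← pow_succ]; congr 1; omega
    unfold Fx
    rw [h2, h1, one_mul]
  have hwK : Fx p e (j + j⁻¹) := hjK.add hjK.inv
  have hw2 : Fx p 2 (j + j⁻¹) := by
    have h1 : ((j + j⁻¹) ^ p) ^ 2 = (j + j⁻¹) ^ 2 := by
      have : ((j + j⁻¹) ^ 2) ^ p = (j + j⁻¹) ^ 2 := by simpa [Fx] using hw
      rw [← pow_mul, mul_comm, pow_mul]
      exact this
    have h2 := sq_eq_sq_iff_eq_or_eq_neg.mp h1
    unfold Fx
    rw [pow_two, pow_mul]
    rcases h2 with h2 | h2
    · rw [h2, h2]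
    · rw [h2]
      have h3 : ((-(j + j⁻¹) : F)) ^ p = -((j + j⁻¹) ^ p) := by
        have := (Fx.neg (p := p) (F := F) (e := 1) (a := 1) Fx.one)
        have h4 : (-1 : F) ^ p = -1 := by simpa [Fx] using this
        rw [neg_pow, h4, neg_one_mul]
      rw [h3, h2, neg_neg]
  have hw1 : Fx p 1 (j + j⁻¹) := by
    have := hwK.gcd hw2
    have hg : e.gcd 2 = 1 := by
      obtain ⟨k, rfl⟩ := hodd
      simp
    rwa [hg] at this
  have h1 : j ^ p + (j⁻¹) ^ p = j + j⁻¹ := by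
    have : (j + j⁻¹) ^ p = j + j⁻¹ := by simpa [Fx] using hw1
    rwa [add_pow_char] at this
  have hjp : j ^ p ≠ 0 := pow_ne_zero _ hj0
  have h2 : (j ^ p - j) * (j ^ p * j - 1) = 0 := by
    rw [inv_pow] at h1
    field_simp at h1
    linear_combination h1
  have h3 : j ^ (p ^ 2 - 1) = 1 := by
    have hfac : p ^ 2 - 1 = (p - 1) * (p + 1) := by
      obtain ⟨k, rfl⟩ : ∃ k, p = k + 1 := ⟨p - 1, by omega⟩
      have : (k + 1) ^ 2 = (k + 1 - 1) * (k + 1 + 1) + 1 := by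
        rw [Nat.add_sub_cancel]; ring
      omega
    rcases mul_eq_zero.mp h2 with h | h
    · have h4 : j ^ (p - 1) = 1 := by
        have h5 : j ^ p = j ^ (p - 1) * j := by rw [← pow_succ]; congr 1; omega
        rw [h5] at h
        have h6 : (j ^ (p - 1) - 1) * j = 0 := by linear_combination h
        rcases mul_eq_zero.mp h6 with h7 | h7
        · exact sub_eq_zero.mp h7
        · exact absurd h7 hj0
      rw [hfac, pow_mul, h4, one_pow]
    · have h4 : j ^ (p + 1) = 1 := by rw [pow_succ]; exact sub_eq_zero.mp h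
      rw [hfac, mul_comm, pow_mul, h4, one_pow]
  have h4 : orderOf j ≤ p ^ 2 - 1 := Nat.le_of_dvd (by
    have : 2 ^ 2 ≤ p ^ 2 := Nat.pow_le_pow_left hp2 2
    omega) (orderOf_dvd_of_pow_eq_one h3)
  have h5 : p ^ 2 < p ^ 3 := Nat.pow_lt_pow_right (by omega) (by omega)
  omega

end Frob

section Main

variable {F : Type} [Field F] {p : ℕ} [hp : Fact p.Prime] [CharP F p]

/-- The subgroup of matrices with entries in the subfield with `p ^ e` elements. -/
def subSL (p e : ℕ) [Fact p.Prime] (F : Type) [Field F] [CharP F p] :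
    Subgroup (SpecialLinearGroup (Fin 2) F) :=
  (SpecialLinearGroup.map ((frobenius F p) ^ e)).eqLocus (MonoidHom.id _)

theorem mem_subSL {e : ℕ} (P : SpecialLinearGroup (Fin 2) F) :
    P ∈ subSL p e F ↔ ∀ i j, Fx p e ((P : Matrix (Fin 2) (Fin 2) F) i j) := by
  change SpecialLinearGroup.map ((frobenius F p) ^ e) P = MonoidHom.id _ P ↔ _
  constructor
  · intro h i j
    have h1 := congrArg (fun Q : SpecialLinearGroup (Fin 2) F =>
      (Q : Matrix (Fin 2) (Fin 2) F) i j) h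
    simp only [SpecialLinearGroup.map_apply_coe, RingHom.mapMatrix_apply, Matrix.map_apply,
      MonoidHom.id_apply] at h1
    rw [RingHom.coe_pow, iter] at h1
    exact h1
  · intro h
    apply Subtype.ext
    ext i j
    simp only [SpecialLinearGroup.map_apply_coe, RingHom.mapMatrix_apply, Matrix.map_apply,
      MonoidHom.id_apply]
    rw [RingHom.coe_pow, iter]
    exact h i j

/-- A matrix of determinant one. -/
def mk2 {F : Type} [Field F] (a b c d : F) (h : a * d - b * c = 1) :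
    SpecialLinearGroup (Fin 2) F :=
  ⟨!![a, b; c, d], by rw [det_fin_two_of]; exact h⟩

theorem mk2_coe {F : Type} [Field F] (a b c d : F) (h : a * d - b * c = 1) :
    (mk2 a b c d h : Matrix (Fin 2) (Fin 2) F) = !![a, b; c, d] := rfl

theorem mk2_mem {e : ℕ} {a b c d : F} (h : a * d - b * c = 1) (ha : Fx p e a) (hb : Fx p e b)
    (hc : Fx p e c) (hd : Fx p e d) : mk2 a b c d h ∈ subSL p e F := by
  rw [mem_subSL, mk2_coe]
  intro i j
  fin_cases i <;> fin_cases j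
  · exact ha
  · exact hb
  · exact hc
  · exact hd

/-- All elements of the group generated by `s` and `t` are conjugate by `C` to matrices over the
subfield, if `s` and `t` are. -/
theorem closure_conj {e : ℕ} (C : Matrix (Fin 2) (Fin 2) F)
    (s t S T : SpecialLinearGroup (Fin 2) F) (hS : S ∈ subSL p e F) (hT : T ∈ subSL p e F)
    (hs : (s : Matrix (Fin 2) (Fin 2) F) * C = C * S) (ht : (t : Matrix (Fin 2) (Fin 2) F) * C = C * T)
    (g : SpecialLinearGroup (Fin 2) F) (hg : g ∈ Subgroup.closure {s, t}) :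
    ∃ P ∈ subSL p e F, (g : Matrix (Fin 2) (Fin 2) F) * C = C * (P : Matrix (Fin 2) (Fin 2) F) := by
  induction hg using Subgroup.closure_induction with
  | mem x hx =>
    rcases hx with rfl | hx
    · exact ⟨S, hS, hs⟩
    · rw [Set.mem_singleton_iff] at hx
      rw [hx]
      exact ⟨T, hT, ht⟩
  | one => exact ⟨1, Subgroup.one_mem _, by simp⟩
  | mul x y _ _ hx hy =>
    obtain ⟨P, hP, h1⟩ := hx
    obtain ⟨Q, hQ, h2⟩ := hy
    refine ⟨P * Q, Subgroup.mul_mem _ hP hQ, ?_⟩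
    rw [SpecialLinearGroup.coe_mul, SpecialLinearGroup.coe_mul, Matrix.mul_assoc, h2,
      ← Matrix.mul_assoc, h1, Matrix.mul_assoc]
  | inv x _ hx =>
    obtain ⟨P, hP, h1⟩ := hx
    refine ⟨P⁻¹, Subgroup.inv_mem _ hP, ?_⟩
    have h2 : ((x⁻¹ : SpecialLinearGroup (Fin 2) F) : Matrix (Fin 2) (Fin 2) F) *
        (x : Matrix (Fin 2) (Fin 2) F) = 1 := by
      rw [← SpecialLinearGroup.coe_mul, inv_mul_cancel, SpecialLinearGroup.coe_one]
    have h3 : (P : Matrix (Fin 2) (Fin 2) F) *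
        ((P⁻¹ : SpecialLinearGroup (Fin 2) F) : Matrix (Fin 2) (Fin 2) F) = 1 := by
      rw [← SpecialLinearGroup.coe_mul, mul_inv_cancel, SpecialLinearGroup.coe_one]
    calc ((x⁻¹ : SpecialLinearGroup (Fin 2) F) : Matrix (Fin 2) (Fin 2) F) * C
        = ((x⁻¹ : SpecialLinearGroup (Fin 2) F) : Matrix (Fin 2) (Fin 2) F) * (C * (P *
          ((P⁻¹ : SpecialLinearGroup (Fin 2) F) : Matrix (Fin 2) (Fin 2) F))) := by
          rw [h3, Matrix.mul_one]
      _ = ((x⁻¹ : SpecialLinearGroup (Fin 2) F) : Matrix (Fin 2) (Fin 2) F) * ((x * C) *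
          ((P⁻¹ : SpecialLinearGroup (Fin 2) F) : Matrix (Fin 2) (Fin 2) F)) := by
          rw [h1, Matrix.mul_assoc]
      _ = (((x⁻¹ : SpecialLinearGroup (Fin 2) F) : Matrix (Fin 2) (Fin 2) F) * x) * C *
          ((P⁻¹ : SpecialLinearGroup (Fin 2) F) : Matrix (Fin 2) (Fin 2) F) := by
          simp only [Matrix.mul_assoc]
      _ = C * ((P⁻¹ : SpecialLinearGroup (Fin 2) F) : Matrix (Fin 2) (Fin 2) F) := by
          rw [h2, Matrix.one_mul]

/-- The arithmetic core: a matrix over the first subfield and a matrix over the second subfield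
conjugate to each other by `E` are unipotent up to sign. -/
theorem core {m n : ℕ} (hmn : Nat.Coprime m n) {ω₁ ω₂ x : F} (h2 : (2 : F) ≠ 0)
    (hω₁ : Fx p m ω₁) (hω₂ : Fx p n ω₂) (h10 : ω₁ ≠ 0) (h20 : ω₂ ≠ 0)
    (hx : (2 * ω₁ * x) ^ 2 = ω₁ ^ 2 * ω₂ ^ 2 - 4 * (ω₁ ^ 2 + ω₂ ^ 2))
    (hn1 : ¬ Fx p 1 (ω₁ ^ 2)) (hn2 : ¬ Fx p 1 (ω₂ ^ 2))
    {p₁ p₂ p₃ p₄ q₁ q₂ q₃ q₄ : F} (hp₁ : Fx p m p₁) (hp₂ : Fx p m p₂) (hp₃ : Fx p m p₃)
    (hp₄ : Fx p m p₄) (hq₁ : Fx p n q₁) (hq₂ : Fx p n q₂) (hq₃ : Fx p n q₃) (hq₄ : Fx p n q₄)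
    (hdet : p₁ * p₄ - p₂ * p₃ = 1)
    (e₁ : p₁ = q₁ + (ω₂ / 2 - x) * q₃) (e₂ : p₃ = -(ω₂ / ω₁) * q₃)
    (e₃ : p₁ * (ω₂ / 2 - x) + p₂ * (-(ω₂ / ω₁)) = q₂ + (ω₂ / 2 - x) * q₄)
    (e₄ : p₃ * (ω₂ / 2 - x) + p₄ * (-(ω₂ / ω₁)) = -(ω₂ / ω₁) * q₄) :
    p₃ = 0 ∧ p₄ = p₁ ∧ (p₁ = 1 ∨ p₁ = -1) ∧ Fx p 1 (p₂ / ω₁) := by
  -- `s = x / ω₂` is not a sum of elements of the two subfields
  have hs : ∀ a b : F, Fx p m a → Fx p n b → x / ω₂ ≠ a + b := by
    intro a b ha hb hab
    have hsq : (a + b) ^ 2 = (1 / 4 - (ω₁ ^ 2)⁻¹) + (-(ω₂ ^ 2)⁻¹) := by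
      rw [← hab]
      have h4 : (4 : F) = 2 * 2 := by norm_num
      have h40 : (4 : F) ≠ 0 := by rw [h4]; exact mul_ne_zero h2 h2
      field_simp
      linear_combination hx
    have h2' : ∀ e : ℕ, Fx p e (2 : F) := by
      intro e
      have : (2 : F) = 1 + 1 := by norm_num
      rw [this]; exact Fx.one.add Fx.one
    have h4' : ∀ e : ℕ, Fx p e (1 / 4 : F) := by
      intro e
      have : (1 / 4 : F) = (2 * 2)⁻¹ := by norm_num
      rw [this]; exact ((h2' e).mul (h2' e)).inv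
    have hu : Fx p m (1 / 4 - (ω₁ ^ 2)⁻¹) := by
      rw [pow_two]; exact (h4' m).sub (hω₁.mul hω₁).inv
    have hv : Fx p n (-(ω₂ ^ 2)⁻¹) := by
      rw [pow_two]; exact (hω₂.mul hω₂).inv.neg
    rcases key ha hb hu hv h2 hsq with h | h
    · -- `b` lies in the first subfield
      apply hn2
      have h3 : Fx p m (ω₂ ^ 2) := by
        have h5 : ω₂ ^ 2 = ((1 / 4 - (ω₁ ^ 2)⁻¹) - (a + b) * (a + b))⁻¹ := by
          rw [← pow_two, hsq]; ring_nf; rw [inv_inv]
        rw [h5]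
        exact (hu.sub ((ha.add h).mul (ha.add h))).inv
      have h4 : Fx p n (ω₂ ^ 2) := by rw [pow_two]; exact hω₂.mul hω₂
      have := h3.gcd h4
      rwa [hmn] at this
    · apply hn1
      have h3 : Fx p n (ω₁ ^ 2) := by
        have h5 : ω₁ ^ 2 = (1 / 4 + (-(ω₂ ^ 2)⁻¹) - (a + b) * (a + b))⁻¹ := by
          rw [← pow_two, hsq]; ring_nf; rw [inv_inv]
        rw [h5]
        exact (((h4' n).add hv).sub ((h.add hb).mul (h.add hb))).inv
      have h4 : Fx p m (ω₁ ^ 2) := by rw [pow_two]; exact hω₁.mul hω₁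
      have := h4.gcd h3
      rwa [hmn] at this
  have h2' : ∀ e : ℕ, Fx p e (2 : F) := by
    intro e
    have : (2 : F) = 1 + 1 := by norm_num
    rw [this]; exact Fx.one.add Fx.one
  have ht0 : ω₁ * p₃ = -(ω₂ * q₃) := by rw [e₂]; field_simp
  have htm : Fx p m (ω₂ * q₃) := by
    have : ω₂ * q₃ = -(ω₁ * p₃) := by rw [ht0, neg_neg]
    rw [this]; exact (hω₁.mul hp₃).neg
  have htn : Fx p n (ω₂ * q₃) := hω₂.mul hq₃
  have hq3 : q₃ = 0 := by
    by_contra hne
    have ht : ω₂ * q₃ ≠ 0 := mul_ne_zero h20 hne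
    apply hs (1 / 2 - p₁ / (ω₂ * q₃)) (q₁ / (ω₂ * q₃))
    · rw [one_div, div_eq_mul_inv]
      exact (h2' m).inv.sub (hp₁.mul htm.inv)
    · rw [div_eq_mul_inv]
      exact hq₁.mul htn.inv
    · rw [e₁]
      field_simp
      ring
  have hp3 : p₃ = 0 := by rw [e₂, hq3, mul_zero]
  have hp1q : p₁ = q₁ := by rw [e₁, hq3, mul_zero, add_zero]
  have hp4q : p₄ = q₄ := by
    have h5 : (p₄ - q₄) * (-(ω₂ / ω₁)) = 0 := by
      rw [hp3] at e₄
      linear_combination e₄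
    rcases mul_eq_zero.mp h5 with h | h
    · exact sub_eq_zero.mp h
    · exfalso
      rw [neg_eq_zero, div_eq_zero_iff] at h
      rcases h with h | h
      · exact h20 h
      · exact h10 h
  -- `p₁ = p₄`
  have hd : p₁ - p₄ = 0 := by
    by_contra hne
    have hdm : Fx p m (p₁ - p₄) := hp₁.sub hp₄
    have hdn : Fx p n (p₁ - p₄) := by rw [hp1q, hp4q]; exact hq₁.sub hq₄
    apply hs (1 / 2 - p₂ / ω₁ / (p₁ - p₄)) (-(q₂ / ω₂ / (p₁ - p₄)))
    · rw [one_div, div_eq_mul_inv, div_eq_mul_inv]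
      exact (h2' m).inv.sub ((hp₂.mul hω₁.inv).mul hdm.inv)
    · rw [div_eq_mul_inv, div_eq_mul_inv]
      exact ((hq₂.mul hω₂.inv).mul hdn.inv).neg
    · rw [← hp4q] at e₃
      field_simp at e₃ ⊢
      linear_combination -e₃
  have hp14 : p₄ = p₁ := (sub_eq_zero.mp hd).symm
  refine ⟨hp3, hp14, ?_, ?_⟩
  · rw [hp14, hp3, mul_zero, sub_zero] at hdet
    exact mul_self_eq_one_iff.mp hdet
  · have h5 : p₂ / ω₁ = -(q₂ / ω₂) := by
      rw [← hp4q, hp14] at e₃
      field_simp at e₃ ⊢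
      apply mul_left_cancel₀ h2
      linear_combination -e₃
    have h6 : Fx p m (p₂ / ω₁) := by rw [div_eq_mul_inv]; exact hp₂.mul hω₁.inv
    have h7 : Fx p n (p₂ / ω₁) := by rw [h5, div_eq_mul_inv]; exact (hq₂.mul hω₂.inv).neg
    have := h6.gcd h7
    rwa [hmn] at this

theorem two_ne_zero' (hp2 : p ≠ 2) : (2 : F) ≠ 0 := by
  intro h
  have h1 : ((2 : ℕ) : F) = 0 := by exact_mod_cast h
  rw [CharP.cast_eq_zero_iff F p] at h1
  exact hp2 ((Nat.prime_dvd_prime_iff_eq hp.out Nat.prime_two).mp h1)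

end Main

/-- The projection of `SL(2, F)` onto `PSL(2, F) = SL(2, F) / center`. -/
def toPSL (F : Type) [Field F] :
    SpecialLinearGroup (Fin 2) F →* ProjectiveSpecialLinearGroup (Fin 2) F :=
  QuotientGroup.mk' (Subgroup.center (SpecialLinearGroup (Fin 2) F))

/-- Two matrices with the same image in `PSL(2, F)` agree up to sign. -/
theorem toPSL_eq {F : Type} [Field F] {g h : SpecialLinearGroup (Fin 2) F}
    (hgh : toPSL F g = toPSL F h) : ∃ c : F, (c = 1 ∨ c = -1) ∧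
      (h : Matrix (Fin 2) (Fin 2) F) = c • (g : Matrix (Fin 2) (Fin 2) F) := by
  have h1 : g⁻¹ * h ∈ Subgroup.center (SpecialLinearGroup (Fin 2) F) := QuotientGroup.eq.mp hgh
  obtain ⟨c, hc, hs⟩ := SpecialLinearGroup.mem_center_iff.mp h1
  refine ⟨c, ?_, ?_⟩
  · rw [Fintype.card_fin] at hc
    exact sq_eq_one_iff.mp hc
  · have h2 : h = g * (g⁻¹ * h) := by group
    have h3 : (h : Matrix (Fin 2) (Fin 2) F) = (g : Matrix (Fin 2) (Fin 2) F) *
        ((g⁻¹ * h : SpecialLinearGroup (Fin 2) F) : Matrix (Fin 2) (Fin 2) F) := by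
      rw [← SpecialLinearGroup.coe_mul, ← h2]
    rw [h3, ← hs, scalar_apply]
    ext i j
    rw [Matrix.mul_diagonal, Matrix.smul_apply, smul_eq_mul, mul_comm]

/-- If two matrices agree up to sign, their images in `PSL(2, F)` are equal. -/
theorem toPSL_eq_of {F : Type} [Field F] {g h : SpecialLinearGroup (Fin 2) F} {c : F}
    (hc : c = 1 ∨ c = -1)
    (hgh : (h : Matrix (Fin 2) (Fin 2) F) = c • (g : Matrix (Fin 2) (Fin 2) F)) :
    toPSL F g = toPSL F h := by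
  apply QuotientGroup.eq.mpr
  rw [SpecialLinearGroup.mem_center_iff]
  refine ⟨c, ?_, ?_⟩
  · rw [Fintype.card_fin]
    exact sq_eq_one_iff.mpr hc
  · have h2 : ((g⁻¹ * g : SpecialLinearGroup (Fin 2) F) : Matrix (Fin 2) (Fin 2) F) = 1 := by
      rw [inv_mul_cancel, SpecialLinearGroup.coe_one]
    rw [SpecialLinearGroup.coe_mul] at h2
    rw [SpecialLinearGroup.coe_mul, hgh, Matrix.mul_smul, h2]
    ext i j
    by_cases hij : i = j
    · subst hij; simp
    · simp [hij]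

/-- **Main theorem.**  Let `p` be an odd prime, `e₁, e₂ > 1` coprime odd integers, `F` a field with
`p ^ (e₁ e₂)` elements, `j₁`, `j₂` primitive elements of the subfields with `p ^ e₁` and `p ^ e₂`
elements, `ω_i = j_i + j_i⁻¹` and `r` a square root of
`Ω = ω₁² ω₂² - 4 (ω₁² + ω₂²)`.  Then the three matrices of the problem, with `x = r / (2 ω₁)`,
have determinant one and the intersection of the subgroups of `PSL(2, F)` generated by
`σ₁, σ₂` and by `σ₂, σ₃` is the subgroup generated by `σ₂`. -/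
theorem result (p e₁ e₂ : ℕ) (hp : p.Prime) (hp2 : p ≠ 2) (he₁ : 1 < e₁) (he₂ : 1 < e₂)
    (ho₁ : Odd e₁) (ho₂ : Odd e₂) (hco : Nat.Coprime e₁ e₂)
    (F : Type) [Field F] [Fintype F] (hF : Fintype.card F = p ^ (e₁ * e₂))
    (j₁ j₂ ω₁ ω₂ r x : F) (hj₁ : orderOf j₁ = p ^ e₁ - 1) (hj₂ : orderOf j₂ = p ^ e₂ - 1)
    (hω₁ : ω₁ = j₁ + j₁⁻¹) (hω₂ : ω₂ = j₂ + j₂⁻¹)
    (hr : r ^ 2 = ω₁ ^ 2 * ω₂ ^ 2 - 4 * (ω₁ ^ 2 + ω₂ ^ 2)) (hx : x = r / (2 * ω₁)) :
    ∃ σ₁ σ₂ σ₃ : SpecialLinearGroup (Fin 2) F,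
      (σ₁ : Matrix (Fin 2) (Fin 2) F) = !![ω₁ / 2, (ω₁ + 2) / 2; (ω₁ - 2) / 2, ω₁ / 2] ∧
      (σ₂ : Matrix (Fin 2) (Fin 2) F) = !![(2 + ω₁) / 2, ω₁ / 2; -ω₁ / 2, (2 - ω₁) / 2] ∧
      (σ₃ : Matrix (Fin 2) (Fin 2) F) =
        !![ω₂ / (2 * ω₁) * (ω₁ - 2), x; x, ω₂ / (2 * ω₁) * (ω₁ + 2)] ∧
      Subgroup.closure {toPSL F σ₁, toPSL F σ₂} ⊓ Subgroup.closure {toPSL F σ₂, toPSL F σ₃} =
        Subgroup.closure {toPSL F σ₂} := by
  have hfact : Fact p.Prime := ⟨hp⟩
  have hchar : CharP F p := by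
    obtain ⟨q, hq⟩ := CharP.exists F
    obtain ⟨n, hqp, hc⟩ := FiniteField.card F q
    rw [hF] at hc
    have h1 : p ∣ q ^ (n : ℕ) := by
      rw [← hc]
      exact dvd_pow_self p (by positivity)
    have h2 := hp.dvd_of_dvd_pow h1
    rw [(Nat.prime_dvd_prime_iff_eq hp hqp).mp h2]
    exact hq
  have h2 : (2 : F) ≠ 0 := two_ne_zero' hp2
  have hn1 : ¬ Fx p 1 (ω₁ ^ 2) := by
    rw [hω₁]; exact fun h => primitive_contra he₁ ho₁ hj₁ h
  have hn2 : ¬ Fx p 1 (ω₂ ^ 2) := by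
    rw [hω₂]; exact fun h => primitive_contra he₂ ho₂ hj₂ h
  have h10 : ω₁ ≠ 0 := by
    rintro h
    apply hn1
    rw [h, pow_two, mul_zero]
    exact Fx.zero
  have h20 : ω₂ ≠ 0 := by
    rintro h
    apply hn2
    rw [h, pow_two, mul_zero]
    exact Fx.zero
  have hjK : ∀ {e : ℕ} {j : F}, orderOf j = p ^ e - 1 → Fx p e j := by
    intro e j hj
    have h1 : j ^ (p ^ e - 1) = 1 := by rw [← hj]; exact pow_orderOf_eq_one j
    have h3 : j ^ (p ^ e) = j ^ (p ^ e - 1) * j := by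
      rw [← pow_succ]
      congr 1
      have : 0 < p ^ e := pow_pos hp.pos e
      omega
    unfold Fx
    rw [h3, h1, one_mul]
  have hK₁ : Fx p e₁ ω₁ := by rw [hω₁]; exact (hjK hj₁).add (hjK hj₁).inv
  have hK₂ : Fx p e₂ ω₂ := by rw [hω₂]; exact (hjK hj₂).add (hjK hj₂).inv
  have hxx : (2 * ω₁ * x) ^ 2 = ω₁ ^ 2 * ω₂ ^ 2 - 4 * (ω₁ ^ 2 + ω₂ ^ 2) := by
    rw [hx, ← hr]
    field_simp
  have hd₁ : det !![ω₁ / 2, (ω₁ + 2) / 2; (ω₁ - 2) / 2, ω₁ / 2] = 1 := by
    rw [det_fin_two_of]; field_simp; ring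
  have hd₂ : det !![(2 + ω₁) / 2, ω₁ / 2; -ω₁ / 2, (2 - ω₁) / 2] = 1 := by
    rw [det_fin_two_of]; field_simp; ring
  have hd₃ : det !![ω₂ / (2 * ω₁) * (ω₁ - 2), x; x, ω₂ / (2 * ω₁) * (ω₁ + 2)] = 1 := by
    rw [det_fin_two_of]; field_simp; linear_combination -hxx
  let σ₁ : SpecialLinearGroup (Fin 2) F := ⟨_, hd₁⟩
  let σ₂ : SpecialLinearGroup (Fin 2) F := ⟨_, hd₂⟩
  let σ₃ : SpecialLinearGroup (Fin 2) F := ⟨_, hd₃⟩
  have hs₁ : (σ₁ : Matrix (Fin 2) (Fin 2) F) =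
    !![ω₁ / 2, (ω₁ + 2) / 2; (ω₁ - 2) / 2, ω₁ / 2] := rfl
  have hs₂ : (σ₂ : Matrix (Fin 2) (Fin 2) F) =
    !![(2 + ω₁) / 2, ω₁ / 2; -ω₁ / 2, (2 - ω₁) / 2] := rfl
  have hs₃ : (σ₃ : Matrix (Fin 2) (Fin 2) F) =
    !![ω₂ / (2 * ω₁) * (ω₁ - 2), x; x, ω₂ / (2 * ω₁) * (ω₁ + 2)] := rfl
  refine ⟨σ₁, σ₂, σ₃, hs₁, hs₂, hs₃, ?_⟩
  apply le_antisymm
  · rintro g ⟨hg₁, hg₂⟩
    have himg : ∀ s t : SpecialLinearGroup (Fin 2) F, Subgroup.closure {toPSL F s, toPSL F t} =
        (Subgroup.closure {s, t}).map (toPSL F) := by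
      intro s t
      rw [MonoidHom.map_closure, Set.image_pair]
    rw [SetLike.mem_coe, himg] at hg₁ hg₂
    obtain ⟨g₁, hg₁, rfl⟩ := hg₁
    obtain ⟨g₂, hg₂, hgg⟩ := hg₂
    obtain ⟨c, hc, hcg⟩ := toPSL_eq hgg.symm
    -- the two bases
    obtain ⟨P, hP, hPg⟩ := closure_conj (p := p) (e := e₁) (!![1, 1; -1, 1]) σ₁ σ₂
      (mk2 0 1 (-1) ω₁ (by ring)) (mk2 1 ω₁ 0 1 (by ring))
      (mk2_mem _ Fx.zero Fx.one Fx.one.neg hK₁) (mk2_mem _ Fx.one hK₁ Fx.zero Fx.one)
      (by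
        rw [hs₁, mk2_coe]
        ext i j
        fin_cases i <;> fin_cases j <;>
          simp [Matrix.mul_apply, Fin.sum_univ_two] <;> field_simp <;> ring)
      (by
        rw [hs₂, mk2_coe]
        ext i j
        fin_cases i <;> fin_cases j <;>
          simp [Matrix.mul_apply, Fin.sum_univ_two] <;> field_simp <;> ring)
      g₁ hg₁
    obtain ⟨Q, hQ, hQg⟩ := closure_conj (p := p) (e := e₂)
      (!![1, ω₂ / (2 * ω₁) * (ω₁ - 2) - x; -1, x - ω₂ / (2 * ω₁) * (ω₁ + 2)]) σ₂ σ₃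
      (mk2 1 (-ω₂) 0 1 (by ring)) (mk2 0 (-1) 1 ω₂ (by ring))
      (mk2_mem _ Fx.one hK₂.neg Fx.zero Fx.one) (mk2_mem _ Fx.zero Fx.one.neg Fx.one hK₂)
      (by
        rw [hs₂, mk2_coe]
        ext i j
        fin_cases i <;> fin_cases j <;>
          simp [Matrix.mul_apply, Fin.sum_univ_two] <;> field_simp <;> ring)
      (by
        rw [hs₃, mk2_coe]
        ext i j
        fin_cases i <;> fin_cases j <;>
          simp [Matrix.mul_apply, Fin.sum_univ_two] <;> field_simp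
        · ring
        · linear_combination hxx
        · ring
        · linear_combination -hxx)
      g₂ hg₂
    -- change of basis
    have hCE : !![1, ω₂ / (2 * ω₁) * (ω₁ - 2) - x; -1, x - ω₂ / (2 * ω₁) * (ω₁ + 2)] =
        !![1, 1; -1, 1] * !![1, ω₂ / 2 - x; 0, -(ω₂ / ω₁)] := by
      ext i j
      fin_cases i <;> fin_cases j <;>
        simp [Matrix.mul_apply, Fin.sum_univ_two] <;> field_simp <;> ring
    have hDu : IsUnit (!![1, 1; -1, 1] : Matrix (Fin 2) (Fin 2) F) := by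
      rw [Matrix.isUnit_iff_isUnit_det, det_fin_two_of]
      exact IsUnit.mk0 _ (by
        have : (1 : F) * 1 - 1 * (-1) = 2 := by norm_num
        rw [this]; exact h2)
    have hPE : (P : Matrix (Fin 2) (Fin 2) F) * !![1, ω₂ / 2 - x; 0, -(ω₂ / ω₁)] =
        !![1, ω₂ / 2 - x; 0, -(ω₂ / ω₁)] * (c • (Q : Matrix (Fin 2) (Fin 2) F)) := by
      apply hDu.mul_left_cancel
      rw [← Matrix.mul_assoc, ← hPg, Matrix.mul_assoc, ← hCE, Matrix.mul_smul, Matrix.mul_smul,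
        ← Matrix.mul_assoc, ← hCE, ← hQg, hcg, Matrix.smul_mul, smul_smul]
      have : c * c = 1 := by rcases hc with rfl | rfl <;> norm_num
      rw [this, one_smul]
    have hPm := (mem_subSL P).mp hP
    have hQm : ∀ i j, Fx p e₂ (c * (Q : Matrix (Fin 2) (Fin 2) F) i j) := by
      intro i j
      have h3 := (mem_subSL Q).mp hQ i j
      rcases hc with rfl | rfl
      · rw [one_mul]; exact h3
      · rw [neg_one_mul]; exact h3.neg
    have hdetP : (P : Matrix (Fin 2) (Fin 2) F) 0 0 * (P : Matrix (Fin 2) (Fin 2) F) 1 1 -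
        (P : Matrix (Fin 2) (Fin 2) F) 0 1 * (P : Matrix (Fin 2) (Fin 2) F) 1 0 = 1 := by
      rw [← det_fin_two]; exact P.2
    have E := fun i j => congrFun (congrFun hPE i) j
    have E00 := E 0 0
    have E01 := E 0 1
    have E10 := E 1 0
    have E11 := E 1 1
    simp only [Matrix.mul_apply, Fin.sum_univ_two, Matrix.smul_apply, smul_eq_mul, Matrix.of_apply,
      Matrix.cons_val_zero, Matrix.cons_val_one, Matrix.cons_val_fin_one, mul_one, mul_zero,
      add_zero, zero_mul, zero_add, one_mul] at E00 E01 E10 E11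
    obtain ⟨r1, r2, r3, r4⟩ := core hco h2 hK₁ hK₂ h10 h20 hxx hn1 hn2 (hPm 0 0) (hPm 0 1)
      (hPm 1 0) (hPm 1 1) (hQm 0 0) (hQm 0 1) (hQm 1 0) (hQm 1 1) hdetP E00 E10 E01 E11
    -- the power of `σ₂`
    have hsgn : Fx p 1 ((P : Matrix (Fin 2) (Fin 2) F) 0 0) := by
      rcases r3 with h | h
      · rw [h]; exact Fx.one
      · rw [h]; exact Fx.one.neg
    obtain ⟨n, hn⟩ := (r4.mul hsgn).natCast
    have hpow : ∀ k : ℕ, ((σ₂ ^ k : SpecialLinearGroup (Fin 2) F) : Matrix (Fin 2) (Fin 2) F) *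
        !![1, 1; -1, 1] = !![1, 1; -1, 1] * !![1, (k : F) * ω₁; 0, 1] := by
      intro k
      induction k with
      | zero =>
        rw [pow_zero, SpecialLinearGroup.coe_one, Matrix.one_mul]
        ext i j
        fin_cases i <;> fin_cases j <;> simp [Matrix.mul_apply, Fin.sum_univ_two]
      | succ k ih =>
        rw [pow_succ, SpecialLinearGroup.coe_mul, Matrix.mul_assoc]
        have h3 : (σ₂ : Matrix (Fin 2) (Fin 2) F) * !![1, 1; -1, 1] =
            !![1, 1; -1, 1] * !![1, ω₁; 0, 1] := by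
          rw [hs₂]
          ext i j
          fin_cases i <;> fin_cases j <;>
            simp [Matrix.mul_apply, Fin.sum_univ_two] <;> field_simp <;> ring
        rw [h3, ← Matrix.mul_assoc, ih, Matrix.mul_assoc]
        congr 1
        ext i j
        fin_cases i <;> fin_cases j <;> simp [Matrix.mul_apply, Fin.sum_univ_two]
        ring
    have hP2 : (P : Matrix (Fin 2) (Fin 2) F) = (P : Matrix (Fin 2) (Fin 2) F) 0 0 •
        !![1, (n : F) * ω₁; 0, 1] := by
      have hsq : (P : Matrix (Fin 2) (Fin 2) F) 0 0 * (P : Matrix (Fin 2) (Fin 2) F) 0 0 = 1 := by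
        rcases r3 with h | h <;> rw [h] <;> norm_num
      ext i j
      fin_cases i <;> fin_cases j
      · simp
      · simp only [Fin.zero_eta, Fin.mk_one, Matrix.smul_apply, smul_eq_mul]
        change (P : Matrix (Fin 2) (Fin 2) F) 0 1 = (P : Matrix (Fin 2) (Fin 2) F) 0 0 *
          ((n : F) * ω₁)
        rw [hn]
        field_simp
        linear_combination -(P : Matrix (Fin 2) (Fin 2) F) 0 1 * hsq
      · simpa using r1
      · simpa using r2
    have hfin : (g₁ : Matrix (Fin 2) (Fin 2) F) = (P : Matrix (Fin 2) (Fin 2) F) 0 0 •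
        ((σ₂ ^ n : SpecialLinearGroup (Fin 2) F) : Matrix (Fin 2) (Fin 2) F) := by
      apply hDu.mul_right_cancel
      rw [hPg, Matrix.smul_mul, hpow, ← Matrix.mul_smul, ← hP2]
    have h5 : toPSL F (σ₂ ^ n) = toPSL F g₁ := toPSL_eq_of (g := σ₂ ^ n) (h := g₁) r3 hfin
    have h6 : toPSL F σ₂ ∈ Subgroup.closure {toPSL F σ₂} :=
      Subgroup.subset_closure (Set.mem_singleton _)
    have h7 := Subgroup.pow_mem _ h6 n
    rw [← map_pow, h5] at h7
    exact h7
  · apply le_inf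
    · apply Subgroup.closure_mono
      simp
    · apply Subgroup.closure_mono
      simp


end Pool.Agent.Results.MP_5bb224_al.IntersectionProperty
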